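import Pool.Agent.Helper59.LUC.Goals

set_option autoImplicit false

namespace Pool.Agent.Helper59.LUC

namespace PkLT6

/-- the angle -/
lemma exists_theta {η : ℂ} (h1 : ‖η‖ = 1) (h2 : η ≠ 1) :
    ∃ θ : ℝ, 0 < θ ∧ θ < 1 ∧ η = Complex.exp (((2 * Real.pi * θ : ℝ) : ℂ) * Complex.I) := by
  have hπ := Real.pi_pos
  set a := Complex.arg η with ha
  have hη : η = Complex.exp ((a : ℂ) * Complex.I) := by
    have := Complex.norm_mul_exp_arg_mul_I η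
    rw [h1] at this
    simpa using this.symm
  refine ⟨Int.fract (a / (2 * Real.pi)), ?_, Int.fract_lt_one _, ?_⟩
  · rcases (Int.fract_nonneg (a / (2 * Real.pi))).eq_or_lt with h | h
    · exfalso
      apply h2
      have h3 : a / (2 * Real.pi) = (⌊a / (2 * Real.pi)⌋ : ℝ) := by
        have := Int.self_sub_floor (a / (2 * Real.pi))
        linarith
      have h4 : a = (⌊a / (2 * Real.pi)⌋ : ℝ) * (2 * Real.pi) := by
        field_simp at h3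
        linarith
      rw [hη, h4, Complex.exp_eq_one_iff]
      refine ⟨⌊a / (2 * Real.pi)⌋, ?_⟩
      push_cast
      ring
    · exact h
  · rw [hη, Complex.exp_eq_exp_iff_exists_int]
    refine ⟨⌊a / (2 * Real.pi)⌋, ?_⟩
    have h3 : Int.fract (a / (2 * Real.pi)) = a / (2 * Real.pi) - ⌊a / (2 * Real.pi)⌋ := rfl
    have h4 : 2 * Real.pi * Int.fract (a / (2 * Real.pi)) = a - ⌊a / (2 * Real.pi)⌋ * (2 * Real.pi) := by
      rw [h3]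
      field_simp
    rw [h4]
    push_cast
    ring

/-- the threshold -/
lemma threshold (θ : ℝ) (hθ : 0 < θ) (σ ℓ₀ : ℝ) :
    ∃ n₁ : ℕ, 2 ≤ n₁ ∧ ∀ n : ℕ, n₁ ≤ n → 1 ≤ (n : ℝ) * θ ∧ σ * (Real.log n + 1) ≤ n ∧ ℓ₀ ≤ Real.log n := by
  have e1 : ∀ᶠ n : ℕ in Filter.atTop, 1 ≤ (n : ℝ) * θ := by
    have : Filter.Tendsto (fun n : ℕ => (n : ℝ) * θ) Filter.atTop Filter.atTop :=
      Filter.Tendsto.atTop_mul_const hθ tendsto_natCast_atTop_atTop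
    exact this.eventually_ge_atTop 1
  have e2 : ∀ᶠ n : ℕ in Filter.atTop, ℓ₀ ≤ Real.log n :=
    (Real.tendsto_log_atTop.comp tendsto_natCast_atTop_atTop).eventually_ge_atTop ℓ₀
  have e3 : ∀ᶠ x : ℝ in Filter.atTop, σ * (Real.log x + 1) ≤ x := by
    have h1 := Real.isLittleO_log_id_atTop.def (c := 1 / (2 * (|σ| + 1))) (by positivity)
    have h2 := Filter.eventually_ge_atTop (2 * (|σ| + 1))
    filter_upwards [h1, h2, Filter.eventually_ge_atTop (1 : ℝ)] with x hx hx2 hx1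
    simp only [id, Real.norm_eq_abs] at hx
    have hx0 : |x| = x := abs_of_pos (by linarith)
    rw [hx0] at hx
    have hl : 0 ≤ Real.log x := Real.log_nonneg hx1
    rw [abs_of_nonneg hl] at hx
    have hs : 0 ≤ |σ| := abs_nonneg σ
    have h3 : (|σ| + 1) * Real.log x ≤ x / 2 := by
      calc (|σ| + 1) * Real.log x ≤ (|σ| + 1) * (1 / (2 * (|σ| + 1)) * x) := by gcongr
        _ = x / 2 := by field_simp
    have h4 : σ * (Real.log x + 1) ≤ (|σ| + 1) * (Real.log x + 1) := by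
      apply mul_le_mul_of_nonneg_right _ (by linarith)
      linarith [le_abs_self σ]
    nlinarith
  have e4 : ∀ᶠ n : ℕ in Filter.atTop, σ * (Real.log n + 1) ≤ n :=
    tendsto_natCast_atTop_atTop.eventually e3
  obtain ⟨n₁, hn₁⟩ := Filter.eventually_atTop.mp (e1.and (e4.and e2))
  refine ⟨max n₁ 2, le_max_right _ _, fun n hn => hn₁ n (le_trans (le_max_left _ _) hn)⟩

lemma one_le_log (n : ℕ) (hn : 1 ≤ n) : 1 ≤ Real.log ((n : ℝ) + 2) := by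
  rw [Real.le_log_iff_exp_le (by positivity)]
  have := Real.exp_one_lt_d9
  have h2 : (1 : ℝ) ≤ n := by exact_mod_cast hn
  linarith

/-- coprime case, large n -/
lemma key (h5 : G_LT5) (T M : ℤ) (η : ℂ) (h : Ctx T M η) (θ : ℝ) (h0 : 0 < θ) (h1 : θ < 1)
    (hη : η = Complex.exp (((2 * Real.pi * θ : ℝ) : ℂ) * Complex.I)) :
    ∃ n₁ : ℕ, ∃ C : ℝ, 0 < C ∧ ∀ n : ℕ, n₁ ≤ n → ∀ j : ℕ, Nat.Coprime j n → |(n : ℝ) * θ - j| ≤ 1 / 2 →
      Real.exp (-(C * (Real.log ((n : ℝ) + 2)) ^ 4)) ≤ |(n : ℝ) * θ - j| := by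
  have hMR := h.MR
  have hM1 : (1 : ℝ) ≤ M := by
    have := h.hM
    have h2 : (2 : ℝ) ≤ M := by exact_mod_cast this
    linarith
  have hlogM : 0 ≤ Real.log M := Real.log_nonneg hM1
  obtain ⟨c, hc⟩ := exists_nat_ge (35 + Real.log M)
  have hc1 : 1 ≤ c := by
    have : (1 : ℝ) ≤ c := by linarith
    exact_mod_cast this
  set σ : ℕ := 32 * c + 8 with hσ
  set α : ℕ := 4 * c * (σ + 4) with hα
  set κ : ℝ := (σ : ℝ) + 8 + 2 * σ / θ with hκ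
  have hαpos : 1 ≤ α := by
    rw [hα]
    have : 0 < 4 * c * (σ + 4) := by positivity
    omega
  have hσpos : 1 ≤ σ := by omega
  have hσR : (1 : ℝ) ≤ σ := by exact_mod_cast hσpos
  have hαR : (1 : ℝ) ≤ α := by exact_mod_cast hαpos
  have hκ1 : 1 ≤ κ := by
    have : 0 ≤ 2 * (σ : ℝ) / θ := by positivity
    rw [hκ]
    linarith
  have hκ0 : 0 < κ := by linarith
  have hlogκ : 0 ≤ Real.log κ := Real.log_nonneg hκ1
  have hlog8 : 0 ≤ Real.log (8 * α) := Real.log_nonneg (by linarith)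
  obtain ⟨n₁, hn2, hn₁⟩ := threshold θ h0 σ (Real.log κ + 2 * Real.log (8 * α) + 7)
  set C₁ : ℝ := 8 * α * (α * (1 + κ) + 8 * (σ + 8) * Real.log M) + 64 * α ^ 2 + 8 * α + 8 + σ + 3 with hC₁
  have hC₁pos : 0 < C₁ := by positivity
  refine ⟨n₁, 16 * C₁, by positivity, ?_⟩
  intro n hn j hj hnj
  obtain ⟨ha, hb, hcc⟩ := hn₁ n hn
  have hn1 : 2 ≤ n := le_trans hn2 hn
  have hnR : (2 : ℝ) ≤ n := by exact_mod_cast hn1
  set ℓ : ℕ := ⌈Real.log n⌉₊ with hℓ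
  have hl1 : Real.log n ≤ ℓ := Nat.le_ceil _
  have hlogn : 0 ≤ Real.log n := Real.log_nonneg (by linarith)
  have hl2 : (ℓ : ℝ) ≤ Real.log n + 1 := (Nat.ceil_lt_add_one hlogn).le
  have hℓ1R : (7 : ℝ) ≤ ℓ := by linarith
  have hℓ1 : 1 ≤ ℓ := by
    have : (1 : ℝ) ≤ ℓ := by linarith
    exact_mod_cast this
  have hab := abs_le.mp hnj
  have hj1 : 1 ≤ j := by
    have : (0 : ℝ) < j := by linarith [hab.2]
    exact_mod_cast this
  have hjn : j ≤ n := by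
    have h3 : (n : ℝ) * θ < n := by nlinarith
    have h4 : (j : ℝ) < n + 1 := by linarith [hab.1]
    have h5 : j < n + 1 := by exact_mod_cast h4
    omega
  have hS2 : σ * ℓ ≤ n := by
    have : (σ : ℝ) * ℓ ≤ n := by
      calc (σ : ℝ) * ℓ ≤ σ * (Real.log n + 1) := by gcongr
        _ ≤ n := hb
    exact_mod_cast this
  have hAB : (α * ℓ) * (8 * ℓ) ≤ (σ * ℓ) * (σ * ℓ) := by
    have h3 : 8 * α ≤ σ * σ := by
      rw [hα, hσ]
      nlinarith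
    calc (α * ℓ) * (8 * ℓ) = (8 * α) * (ℓ * ℓ) := by ring
      _ ≤ (σ * σ) * (ℓ * ℓ) := Nat.mul_le_mul_right _ h3
      _ = _ := by ring
  have hlogℓ : Real.log ℓ ≤ ℓ - 1 := Real.log_le_sub_one_of_pos (by linarith)
  have hρ : κ * ℓ = ((σ * ℓ : ℕ) : ℝ) + ((8 * ℓ : ℕ) : ℝ) + 2 * ((σ * ℓ : ℕ) : ℝ) / θ := by
    rw [hκ]
    push_cast
    ring
  have hlogρ : Real.log (κ * ℓ) = Real.log κ + Real.log ℓ :=
    Real.log_mul hκ0.ne' (by linarith)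
  have hmain : 2 * Real.log (((α * ℓ : ℕ) : ℝ) * ((8 * ℓ : ℕ) : ℝ)) + 2 +
      ((α * ℓ : ℕ) : ℝ) * (1 + Real.log (κ * ℓ) + ℓ) +
      ((8 * ℓ : ℕ) : ℝ) * ((18 + Real.log M) * (((σ * ℓ : ℕ) : ℝ) + ((8 * ℓ : ℕ) : ℝ)) + 35 * ((σ * ℓ : ℕ) : ℝ))
      < ((α * ℓ : ℕ) : ℝ) * ((8 * ℓ : ℕ) : ℝ) - 1 := by
    have e1 : Real.log (((α * ℓ : ℕ) : ℝ) * ((8 * ℓ : ℕ) : ℝ)) = Real.log (8 * α) + 2 * Real.log ℓ := by
      push_cast
      rw [show (α : ℝ) * ℓ * (8 * ℓ) = (8 * α) * (ℓ ^ 2) by ring, Real.log_mul (by positivity) (by positivity),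
        Real.log_pow]
      push_cast
      ring
    rw [e1, hlogρ]
    push_cast
    have e2 : (8 * (ℓ : ℝ)) * ((18 + Real.log M) * ((σ : ℝ) * ℓ + 8 * ℓ) + 35 * (σ * ℓ)) ≤ 4 * α * ℓ ^ 2 := by
      have e3 : (α : ℝ) = 4 * c * (σ + 4) := by
        rw [hα]; push_cast; ring
      rw [e3]
      have e4 : (18 + Real.log M) * ((σ : ℝ) * ℓ + 8 * ℓ) ≤ c * ((σ : ℝ) * ℓ + 8 * ℓ) := by
        apply mul_le_mul_of_nonneg_right _ (by positivity)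
        linarith
      have e5 : 35 * ((σ : ℝ) * ℓ) ≤ c * ((σ : ℝ) * ℓ) := by
        apply mul_le_mul_of_nonneg_right _ (by positivity)
        linarith
      have e6 : (0 : ℝ) ≤ 8 * ℓ := by positivity
      calc (8 * (ℓ : ℝ)) * ((18 + Real.log M) * ((σ : ℝ) * ℓ + 8 * ℓ) + 35 * (σ * ℓ))
          ≤ (8 * (ℓ : ℝ)) * (c * ((σ : ℝ) * ℓ + 8 * ℓ) + c * ((σ : ℝ) * ℓ)) := by
            apply mul_le_mul_of_nonneg_left _ e6
            linarith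
        _ = 4 * (4 * c * (σ + 4)) * ℓ ^ 2 := by ring
    -- the logarithmic part
    have e7 : (α : ℝ) * ℓ * (Real.log κ + 2 * Real.log (8 * α) + 7) ≤ α * ℓ * ℓ := by
      apply mul_le_mul_of_nonneg_left _ (by positivity)
      linarith
    have e8 : (α : ℝ) * ℓ * (1 + Real.log ℓ) ≤ α * ℓ * ℓ := by
      apply mul_le_mul_of_nonneg_left _ (by positivity)
      linarith
    have e9 : (ℓ : ℝ) ≤ α * ℓ := by
      nlinarith
    have e10 : 2 * Real.log (8 * α) ≤ α * ℓ * (2 * Real.log (8 * α)) := by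
      have : (1 : ℝ) ≤ α * ℓ := by linarith
      nlinarith
    have e11 : 0 < (α : ℝ) * ℓ * ℓ := by positivity
    nlinarith [e2, e7, e8, e9, e10, e11, hlogℓ]
  have hfin := h5 T M η h θ h0 h1 hη (α * ℓ) (8 * ℓ) (σ * ℓ) (σ * ℓ) n j
    (Nat.mul_pos hαpos hℓ1) (by omega) (Nat.mul_pos hσpos hℓ1) hj1 hjn hj hS2 hAB
    (by linarith [hab.2]) ℓ (κ * ℓ) hl1 hρ hmain
  refine le_trans (Real.exp_le_exp.mpr ?_) hfin
  rw [neg_le_neg_iff]
  -- exponent bound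
  have hL : (ℓ : ℝ) ≤ 2 * Real.log ((n : ℝ) + 2) := by
    have h3 : Real.log n ≤ Real.log ((n : ℝ) + 2) := Real.log_le_log (by linarith) (by linarith)
    have h4 := one_le_log n (by omega)
    linarith
  have hρle : Real.log (κ * ℓ) ≤ κ * ℓ := Real.log_le_self (by positivity)
  have hℓR : (1 : ℝ) ≤ ℓ := by linarith
  have hp2 : (ℓ : ℝ) ≤ ℓ ^ 4 := le_self_pow₀ hℓR (by norm_num)
  have hp3 : (ℓ : ℝ) ^ 2 ≤ ℓ ^ 4 := pow_le_pow_right₀ hℓR (by norm_num)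
  have hp4 : (1 : ℝ) ≤ ℓ ^ 4 := one_le_pow₀ hℓR
  have hbound : ((α * ℓ : ℕ) : ℝ) * ((8 * ℓ : ℕ) : ℝ) * (((α * ℓ : ℕ) : ℝ) * (ℓ + Real.log (κ * ℓ)) +
      ((8 * ℓ : ℕ) : ℝ) * (((σ * ℓ : ℕ) : ℝ) + ((8 * ℓ : ℕ) : ℝ)) * Real.log M) +
      (((α * ℓ : ℕ) : ℝ) * ((8 * ℓ : ℕ) : ℝ)) ^ 2 + ((α * ℓ : ℕ) : ℝ) * ((8 * ℓ : ℕ) : ℝ) + ((8 * ℓ : ℕ) : ℝ) +
      ((σ * ℓ : ℕ) : ℝ) + 3 ≤ C₁ * ℓ ^ 4 := by
    push_cast
    have f1 : (α : ℝ) * ℓ * (ℓ + Real.log (κ * ℓ)) ≤ α * (1 + κ) * ℓ ^ 2 := by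
      calc (α : ℝ) * ℓ * (ℓ + Real.log (κ * ℓ)) ≤ α * ℓ * (ℓ + κ * ℓ) := by gcongr
        _ = _ := by ring
    have f2 : (α : ℝ) * ℓ * (8 * ℓ) * ((α : ℝ) * ℓ * (ℓ + Real.log (κ * ℓ)) +
        8 * ℓ * ((σ : ℝ) * ℓ + 8 * ℓ) * Real.log M) ≤
        8 * α * (α * (1 + κ) + 8 * (σ + 8) * Real.log M) * ℓ ^ 4 := by
      calc (α : ℝ) * ℓ * (8 * ℓ) * ((α : ℝ) * ℓ * (ℓ + Real.log (κ * ℓ)) +
          8 * ℓ * ((σ : ℝ) * ℓ + 8 * ℓ) * Real.log M) ≤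
          α * ℓ * (8 * ℓ) * (α * (1 + κ) * ℓ ^ 2 + 8 * ℓ * ((σ : ℝ) * ℓ + 8 * ℓ) * Real.log M) := by gcongr
        _ = _ := by ring
    have f3 : ((α : ℝ) * ℓ * (8 * ℓ)) ^ 2 = 64 * α ^ 2 * ℓ ^ 4 := by ring
    have f4 : (α : ℝ) * ℓ * (8 * ℓ) ≤ 8 * α * ℓ ^ 4 := by
      calc (α : ℝ) * ℓ * (8 * ℓ) = 8 * α * ℓ ^ 2 := by ring
        _ ≤ _ := by gcongr
    have f5 : 8 * (ℓ : ℝ) ≤ 8 * ℓ ^ 4 := by gcongr
    have f6 : (σ : ℝ) * ℓ ≤ σ * ℓ ^ 4 := by gcongr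
    have f7 : (3 : ℝ) ≤ 3 * ℓ ^ 4 := by linarith
    rw [hC₁]
    nlinarith [f2, f3, f4, f5, f6, f7]
  refine le_trans hbound ?_
  calc C₁ * (ℓ : ℝ) ^ 4 ≤ C₁ * (2 * Real.log ((n : ℝ) + 2)) ^ 4 := by gcongr
    _ = 16 * C₁ * (Real.log ((n : ℝ) + 2)) ^ 4 := by ring

/-- from the distance to the nearest integer to the norm -/
lemma norm_ge (θ : ℝ) (n : ℕ) (j : ℤ) (h : |(n : ℝ) * θ - j| ≤ 1 / 2) (η : ℂ)
    (hη : η = Complex.exp (((2 * Real.pi * θ : ℝ) : ℂ) * Complex.I)) :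
    |(n : ℝ) * θ - j| ≤ ‖η ^ n - 1‖ := by
  have hπ := Real.pi_pos
  set x : ℝ := (n : ℝ) * θ - j with hx
  have e1 : η ^ n = Complex.exp (Complex.I * ((2 * Real.pi * x : ℝ) : ℂ)) := by
    rw [hη, ← Complex.exp_nat_mul, Complex.exp_eq_exp_iff_exists_int]
    refine ⟨j, ?_⟩
    rw [hx]
    push_cast
    ring
  rw [e1, Complex.norm_exp_I_mul_ofReal_sub_one]
  have e2 : 2 * Real.pi * x / 2 = Real.pi * x := by ring
  rw [e2, Real.norm_eq_abs, abs_mul, abs_two]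
  have e3 : |Real.pi * x| ≤ Real.pi / 2 := by
    rw [abs_mul, abs_of_pos hπ]
    nlinarith
  have e4 := Real.mul_abs_le_abs_sin e3
  rw [abs_mul, abs_of_pos hπ] at e4
  have e5 : 2 / Real.pi * (Real.pi * |x|) = 2 * |x| := by field_simp
  rw [e5] at e4
  have := abs_nonneg x
  linarith

theorem thm (h5 : G_LT5) : G_LT6 := by
  intro T M η h
  have hne : η ≠ 1 := by
    have := h.hru 1 one_pos
    simpa using this
  obtain ⟨θ, h0, h1, hη⟩ := exists_theta h.norm_eq hne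
  obtain ⟨n₁, C₂, hC₂, hkey⟩ := key h5 T M η h θ h0 h1 hη
  -- the distances are positive
  have hdist : ∀ m : ℕ, 1 ≤ m → 0 < |(m : ℝ) * θ - round ((m : ℝ) * θ)| := by
    intro m hm
    rw [abs_pos]
    intro h2
    apply h.hru m hm
    rw [hη, ← Complex.exp_nat_mul, Complex.exp_eq_one_iff]
    refine ⟨round ((m : ℝ) * θ), ?_⟩
    have h3 : (m : ℝ) * θ = (round ((m : ℝ) * θ) : ℝ) := by linarith
    have h4 : ((m : ℝ) : ℂ) * (θ : ℂ) = ((round ((m : ℝ) * θ) : ℤ) : ℂ) := by exact_mod_cast h3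
    rw [← h4]
    push_cast
    ring
  set C₃ : ℝ := ∑ m ∈ Finset.range (n₁ + 1), |Real.log (abs ((m : ℝ) * θ - round ((m : ℝ) * θ)))| with hC₃
  have hC₃0 : 0 ≤ C₃ := Finset.sum_nonneg fun i _ => abs_nonneg _
  have hsmall : ∀ m : ℕ, 1 ≤ m → m < n₁ → Real.exp (-C₃) ≤ |(m : ℝ) * θ - round ((m : ℝ) * θ)| := by
    intro m hm hmn
    have h2 : |Real.log (abs ((m : ℝ) * θ - round ((m : ℝ) * θ)))| ≤ C₃ :=
      Finset.single_le_sum (f := fun m : ℕ => |Real.log (abs ((m : ℝ) * θ - round ((m : ℝ) * θ)))|)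
        (fun i _ => abs_nonneg _) (Finset.mem_range.mpr (by omega))
    have h3 : -C₃ ≤ Real.log |(m : ℝ) * θ - round ((m : ℝ) * θ)| := by
      have := neg_abs_le (Real.log |(m : ℝ) * θ - round ((m : ℝ) * θ)|)
      linarith
    calc Real.exp (-C₃) ≤ Real.exp (Real.log |(m : ℝ) * θ - round ((m : ℝ) * θ)|) := Real.exp_le_exp.mpr h3
      _ = _ := Real.exp_log (hdist m hm)
  refine ⟨C₂ + C₃, by linarith, ?_⟩
  intro n hn
  have hnR : (1 : ℝ) ≤ n := by exact_mod_cast hn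
  -- the nearest integer
  have hround : |(n : ℝ) * θ - round ((n : ℝ) * θ)| ≤ 1 / 2 := abs_sub_round _
  have hrn : 0 ≤ round ((n : ℝ) * θ) := by
    have h2 := (abs_le.mp hround).2
    have h3 : (0 : ℝ) < n * θ := by positivity
    have h4 : (-1 : ℝ) < (round ((n : ℝ) * θ) : ℝ) := by linarith
    have h5 : (-1 : ℤ) < round ((n : ℝ) * θ) := by exact_mod_cast h4
    omega
  obtain ⟨j, hj⟩ := Int.eq_ofNat_of_zero_le hrn
  refine le_trans ?_ (norm_ge θ n (round ((n : ℝ) * θ)) hround η hη)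
  rw [hj] at hround ⊢
  have hjc : (((j : ℕ) : ℤ) : ℝ) = (j : ℝ) := by simp
  rw [hjc] at hround ⊢
  obtain ⟨g, j₀, n₀, hg, hcop, hj0, hn0⟩ : ∃ g j₀ n₀ : ℕ, 0 < g ∧ Nat.Coprime j₀ n₀ ∧ j = j₀ * g ∧ n = n₀ * g := by
    have hgpos : 0 < Nat.gcd j n := Nat.gcd_pos_of_pos_right _ hn
    obtain ⟨j₀, n₀, hc, e1, e2⟩ := Nat.exists_coprime j n
    exact ⟨Nat.gcd j n, j₀, n₀, hgpos, hc, e1, e2⟩
  have hgR : (1 : ℝ) ≤ g := by exact_mod_cast hg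
  have hn0pos : 1 ≤ n₀ := by
    rcases Nat.eq_zero_or_pos n₀ with h2 | h2
    · subst h2; omega
    · exact h2
  have hn0le : n₀ ≤ n := by
    rw [hn0]
    exact Nat.le_mul_of_pos_right _ hg
  have hmul : |(n : ℝ) * θ - j| = g * |(n₀ : ℝ) * θ - j₀| := by
    rw [hn0, hj0]
    push_cast
    rw [show (n₀ : ℝ) * g * θ - j₀ * g = g * (n₀ * θ - j₀) by ring, abs_mul, abs_of_pos (by linarith : (0:ℝ) < g)]
  have hle : |(n₀ : ℝ) * θ - j₀| ≤ |(n : ℝ) * θ - j| := by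
    rw [hmul]
    have := abs_nonneg ((n₀ : ℝ) * θ - j₀)
    nlinarith
  refine le_trans ?_ hle
  have hLn := one_le_log n hn
  have hL4 : 1 ≤ (Real.log ((n : ℝ) + 2)) ^ 4 := one_le_pow₀ hLn
  rcases lt_or_ge n₀ n₁ with hlt | hge
  · have h2 := hsmall n₀ hn0pos hlt
    have h3 : |(n₀ : ℝ) * θ - round ((n₀ : ℝ) * θ)| ≤ |(n₀ : ℝ) * θ - j₀| := by
      have := round_le ((n₀ : ℝ) * θ) (j₀ : ℤ)
      simpa using this
    refine le_trans (le_trans (Real.exp_le_exp.mpr ?_) h2) h3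
    rw [neg_le_neg_iff]
    nlinarith
  · have h2 := hkey n₀ hge j₀ hcop (le_trans hle hround)
    refine le_trans (Real.exp_le_exp.mpr ?_) h2
    rw [neg_le_neg_iff]
    have h3 : Real.log ((n₀ : ℝ) + 2) ≤ Real.log ((n : ℝ) + 2) := by
      apply Real.log_le_log (by positivity)
      have : (n₀ : ℝ) ≤ n := by exact_mod_cast hn0le
      linarith
    have h4 : 0 ≤ Real.log ((n₀ : ℝ) + 2) := by
      have := one_le_log n₀ hn0pos
      linarith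
    have h5 : (Real.log ((n₀ : ℝ) + 2)) ^ 4 ≤ (Real.log ((n : ℝ) + 2)) ^ 4 := by gcongr
    nlinarith

end PkLT6

end Pool.Agent.Helper59.LUC
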